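import Pool.Agent.Y401.KM.Mol1

/-!
# Project KM: S_MOL
-/

set_option autoImplicit false

namespace Pool.Agent.Y401.KM

open MvPolynomial Matrix Module
open Pool.Agent.Helper477.Sph (TT TT_X TT_C TT_mul TT_one TT_homog I expand monomial_homog Mk
  TT_monomial Mk_mul Mk_one Mk_map tau coeff_tau tau_diag)
open Pool.Agent.Y461.KM

variable {n m : ℕ}

/-- change of index set -/
noncomputable def ph (n m : ℕ) : Pl n m ≃ₐ[ℚ] MvPolynomial (Fin (n + m)) ℚ :=
  renameEquiv ℚ finSumFinEquiv

theorem ph_X (x : Fin n ⊕ Fin m) : ph n m (X x) = X (finSumFinEquiv x) := by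
  simp [ph]

theorem ph_C (a : ℚ) : ph n m (C a) = C a := by
  simp [ph]

/-- `g` is represented by the matrix `a` -/
def Rep (g : Pl n m →ₐ[ℚ] Pl n m) (a : Matrix (Fin (n + m)) (Fin (n + m)) ℚ) : Prop :=
  ∀ p, ph n m (g p) = TT a (ph n m p)

theorem Rep.of_X {g : Pl n m →ₐ[ℚ] Pl n m} {a : Matrix (Fin (n + m)) (Fin (n + m)) ℚ}
    (h : ∀ x, ph n m (g (X x)) = TT a (ph n m (X x))) : Rep g a := by
  have : ((ph n m : Pl n m →ₐ[ℚ] _).comp g) = (TT a).comp (ph n m : Pl n m →ₐ[ℚ] _) := by
    apply MvPolynomial.algHom_ext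
    intro x
    exact h x
  intro p
  exact DFunLike.congr_fun this p

theorem Rep.mul {g h : Pl n m →ₐ[ℚ] Pl n m} {a b : Matrix (Fin (n + m)) (Fin (n + m)) ℚ}
    (hg : Rep g a) (hh : Rep h b) : Rep (g * h) (b * a) := by
  intro p
  have e : (g * h) p = g (h p) := rfl
  rw [e, hg, hh, TT_mul]

theorem Rep.one : Rep (1 : Pl n m →ₐ[ℚ] Pl n m) 1 := by
  intro p
  rw [TT_one]; rfl

theorem Rep.unique {g : Pl n m →ₐ[ℚ] Pl n m} {a b : Matrix (Fin (n + m)) (Fin (n + m)) ℚ}
    (hg : Rep g a) (hh : Rep g b) : a = b := by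
  apply TT_inj
  intro p
  have h1 := hg ((ph n m).symm p)
  have h2 := hh ((ph n m).symm p)
  rw [AlgEquiv.apply_symm_apply] at h1 h2
  rw [← h1, ← h2]

variable (A : Matrix (Fin n) (Fin n) ℤ) (b : Fin n → Fin m → ℚ)

/-- coordinates of the simple root -/
noncomputable def co (j : Fin n) (x : Fin n ⊕ Fin m) : ℚ :=
  Sum.elim (fun j' => ((A j' j : ℤ) : ℚ)) (fun s => b j s) x

theorem al_eq (j : Fin n) : al A b j = ∑ x, C (co A b j x) * X x := by
  rw [Fintype.sum_sum_type]
  rfl

theorem rep_rf (j : Fin n) : ∃ a, Rep (rf A b j) a := by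
  refine ⟨fun i k => (if i = k then 1 else 0) - (if i = finSumFinEquiv (Sum.inl j) then
    co A b j (finSumFinEquiv.symm k) else 0), Rep.of_X fun x => ?_⟩
  rw [ph_X, TT_X]
  have h1 : rf A b j (X x) = X x - if x = Sum.inl j then al A b j else 0 := by
    simp [rf]
  rw [h1, map_sub, ph_X]
  have h2 : ∀ k : Fin (n + m), (C (((if finSumFinEquiv x = k then (1 : ℚ) else 0) -
      (if finSumFinEquiv x = finSumFinEquiv (Sum.inl j) then
        co A b j (finSumFinEquiv.symm k) else 0))) * X k : MvPolynomial (Fin (n + m)) ℚ) =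
      (if finSumFinEquiv x = k then X k else 0) - (if x = Sum.inl j then
        C (co A b j (finSumFinEquiv.symm k)) * X k else 0) := by
    intro k
    have e : (finSumFinEquiv x = finSumFinEquiv (Sum.inl j : Fin n ⊕ Fin m)) ↔ x = Sum.inl j :=
      finSumFinEquiv.injective.eq_iff
    rw [C_sub, sub_mul]
    congr 1
    · split_ifs <;> simp
    · by_cases hx : x = Sum.inl j
      · rw [if_pos (e.2 hx), if_pos hx]
      · rw [if_neg (fun h => hx (e.1 h)), if_neg hx]; simp
  simp only [h2]
  rw [Finset.sum_sub_distrib, Finset.sum_ite_eq, if_pos (Finset.mem_univ _)]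
  congr 1
  by_cases hx : x = Sum.inl j
  · simp only [if_pos hx]
    rw [al_eq, map_sum, ← Equiv.sum_comp finSumFinEquiv]
    refine Finset.sum_congr rfl fun y _ => ?_
    rw [map_mul, ph_C, ph_X, Equiv.symm_apply_apply]
  · simp only [if_neg hx]
    simp

theorem rf_al (j : Fin n) (hj : A j j = 2) : rf A b j (al A b j) = - al A b j := by
  have h1 : ∀ x, rf A b j (X x) = X x - if x = Sum.inl j then al A b j else 0 := by
    intro x; simp [rf]
  have hC : ∀ c : ℚ, rf A b j (C c) = C c := fun c => (rf A b j).commutes c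
  conv_lhs => rw [al_eq, map_sum]
  simp only [map_mul, hC, h1, mul_sub]
  rw [Finset.sum_sub_distrib, ← al_eq]
  have h2 : ∑ x, C (co A b j x) * (if x = Sum.inl j then al A b j else 0) = C 2 * al A b j := by
    rw [Finset.sum_eq_single (Sum.inl j)]
    · rw [if_pos rfl]
      congr 2
      show ((A j j : ℤ) : ℚ) = 2
      rw [hj]; norm_num
    · intro y _ hy
      rw [if_neg hy, mul_zero]
    · intro h; exact absurd (Finset.mem_univ _) h
  rw [h2]
  have : (C 2 : Pl n m) = 2 := rfl
  rw [this]; ring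

theorem rf_rf (j : Fin n) (hj : A j j = 2) : rf A b j * rf A b j = 1 := by
  have h1 : ∀ x, rf A b j (X x) = X x - if x = Sum.inl j then al A b j else 0 := by
    intro x; simp [rf]
  apply MvPolynomial.algHom_ext
  intro x
  show rf A b j (rf A b j (X x)) = X x
  rw [h1, map_sub, h1]
  by_cases hx : x = Sum.inl j
  · rw [if_pos hx, rf_al A b j hj]; ring
  · rw [if_neg hx, map_zero]; ring

theorem mol : S_MOL := by
  intro n m A b J hA hS
  classical
  -- the group
  let G : Submonoid (Pl n m →ₐ[ℚ] Pl n m) :=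
    Submonoid.closure ((fun j => rf A b j) '' (J : Set (Fin n)))
  have hfin : Finite G := hS
  have : Fintype G := Fintype.ofFinite G
  have hrep : ∀ g ∈ G, ∃ a, Rep g a := by
    intro g hg
    induction hg using Submonoid.closure_induction with
    | mem x hx =>
      obtain ⟨j, -, rfl⟩ := hx
      exact rep_rf A b j
    | one => exact ⟨1, Rep.one⟩
    | mul x y _ _ hx hy =>
      obtain ⟨a, ha⟩ := hx
      obtain ⟨a', ha'⟩ := hy
      exact ⟨a' * a, ha.mul ha'⟩
  have hunit : ∀ g ∈ G, IsUnit g := by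
    intro g hg
    induction hg using Submonoid.closure_induction with
    | mem x hx =>
      obtain ⟨j, -, rfl⟩ := hx
      exact ⟨⟨_, _, rf_rf A b j (hA j), rf_rf A b j (hA j)⟩, rfl⟩
    | one => exact isUnit_one
    | mul x y _ _ hx hy => exact hx.mul hy
  choose mt0 hmt0 using hrep
  let mt : G → Matrix (Fin (n + m)) (Fin (n + m)) ℚ := fun g => mt0 g.1 g.2
  have hmt : ∀ g : G, Rep g.1 (mt g) := fun g => hmt0 g.1 g.2
  have hmul : ∀ g h : G, mt (g * h) = mt h * mt g := fun g h =>
    (hmt (g * h)).unique ((hmt g).mul (hmt h))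
  have hone : mt 1 = 1 := (hmt 1).unique Rep.one
  have hbij : ∀ h : G, Function.Bijective (fun g : G => h * g) := by
    intro h
    apply Finite.injective_iff_bijective.1
    intro g g' hgg
    have h1 : h.1 * g.1 = h.1 * g'.1 := congrArg Subtype.val hgg
    exact Subtype.ext ((hunit h.1 h.2).mul_left_cancel h1)
  -- orders
  have hord : ∀ g : G, ∃ M : ℕ, 0 < M ∧ mt g ^ M = 1 := by
    intro g
    obtain ⟨i, j, hij, hgij⟩ := Finite.exists_ne_map_eq_of_infinite (fun k : ℕ => g ^ k)
    wlog hlt : i < j generalizing i j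
    · exact this j i (Ne.symm hij) hgij.symm (lt_of_le_of_ne (not_lt.1 hlt) (Ne.symm hij))
    refine ⟨j - i, by omega, ?_⟩
    have h1 : (g : Pl n m →ₐ[ℚ] Pl n m) ^ i * 1 = g.1 ^ i * g.1 ^ (j - i) := by
      rw [mul_one, ← pow_add]
      have : i + (j - i) = j := by omega
      rw [this]
      exact congrArg Subtype.val hgij
    have h2 : (1 : Pl n m →ₐ[ℚ] Pl n m) = g.1 ^ (j - i) :=
      ((hunit g.1 g.2).pow i).mul_left_cancel h1
    have h3 : g ^ (j - i) = 1 := Subtype.ext h2.symm
    have h4 : ∀ k : ℕ, mt (g ^ k) = mt g ^ k := by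
      intro k
      induction k with
      | zero => rw [pow_zero, pow_zero, hone]
      | succ k ih => rw [pow_succ, hmul, ih, pow_succ']
    rw [← h4, h3, hone]
  choose M0 hM0 hM1 using hord
  refine ⟨∏ g : G, M0 g, Finset.prod_pos fun g _ => hM0 g, ?_⟩
  intro M' hM' hdvd
  apply series G mt M' hM'
  · intro g
    have h1 : M0 g ∣ M' := (Finset.dvd_prod_of_mem M0 (Finset.mem_univ g)).trans hdvd
    obtain ⟨c, hc⟩ := h1
    rw [hc, pow_mul, hM1, one_pow]
  · intro k
    have h1 := molien k G (fun g h => g * h) hbij mt hmul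
    rw [← h1]
    congr 2
    -- the invariants
    have hInv : ∀ p : Pl n m, p ∈ Inv A b J ↔ ∀ g : G, g.1 p = p := by
      intro p
      constructor
      · intro hp g
        obtain ⟨g, hg⟩ := g
        show g p = p
        induction hg using Submonoid.closure_induction with
        | mem x hx =>
          obtain ⟨j, hj, rfl⟩ := hx
          exact hp j hj
        | one => rfl
        | mul x y _ _ hx hy =>
          show x (y p) = p
          rw [hy, hx]
      · intro hp j hj
        exact hp ⟨rf A b j, Submonoid.subset_closure ⟨j, hj, rfl⟩⟩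
    have hmap : (invk A b J k).map (ph n m).toLinearMap =
        homogeneousSubmodule (Fin (n + m)) ℚ k ⊓
          ⨅ g : G, LinearMap.ker ((TT (mt g)).toLinearMap - LinearMap.id) := by
      ext q
      rw [Submodule.mem_map, Submodule.mem_inf, Submodule.mem_iInf]
      have hk : ∀ (g : G) (p : MvPolynomial (Fin (n + m)) ℚ),
          p ∈ LinearMap.ker ((TT (mt g)).toLinearMap - LinearMap.id) ↔ TT (mt g) p = p := by
        intro g p
        rw [LinearMap.mem_ker, LinearMap.sub_apply, LinearMap.id_apply, sub_eq_zero]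
        rfl
      simp only [hk]
      constructor
      · rintro ⟨p, hp, rfl⟩
        obtain ⟨hp1, hp2⟩ := Submodule.mem_inf.1 hp
        refine ⟨?_, fun g => ?_⟩
        · rw [mem_homogeneousSubmodule] at hp2 ⊢
          exact hp2.rename_isHomogeneous
        · have h2 := (hInv p).1 hp1 g
          have h3 := hmt g p
          rw [h2] at h3
          exact h3.symm
      · rintro ⟨hq1, hq2⟩
        refine ⟨(ph n m).symm q, Submodule.mem_inf.2 ⟨?_, ?_⟩, ?_⟩
        · show (ph n m).symm q ∈ Inv A b J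
          rw [hInv]
          intro g
          apply (ph n m).injective
          rw [hmt g, AlgEquiv.apply_symm_apply]
          exact hq2 g
        · rw [mem_homogeneousSubmodule] at hq1 ⊢
          exact hq1.rename_isHomogeneous
        · show ph n m ((ph n m).symm q) = q
          rw [AlgEquiv.apply_symm_apply]
    rw [← hmap]
    exact (LinearEquiv.finrank_eq (Submodule.equivMapOfInjective
      (ph n m).toLinearMap (ph n m).injective (invk A b J k)))

end Pool.Agent.Y401.KM

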