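import Pool.Agent.Y461.KM.Stm
import Pool.Agent.Helper477.Sph.Mol2

/-!
# Project KM: Molien's formula for finite monoids of invertible substitutions (rational version)
-/

set_option autoImplicit false

namespace Pool.Agent.Y401.KM

open MvPolynomial Matrix Module
open Pool.Agent.Helper477.Sph (TT TT_X TT_C TT_mul TT_one TT_homog I expand monomial_homog Mk
  TT_monomial Mk_mul Mk_one Mk_map tau coeff_tau tau_diag)

variable {N : ℕ}

/-! ### the substitution determines the matrix -/

theorem TT_coeff (a : Matrix (Fin N) (Fin N) ℚ) (i j : Fin N) :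
    coeff (Finsupp.single j 1) (TT a (X i)) = a i j := by
  classical
  rw [TT_X, coeff_sum, Finset.sum_eq_single j]
  · rw [coeff_C_mul, coeff_X]
    simp
  · intro k _ hk
    rw [coeff_C_mul, coeff_X, if_neg, mul_zero]
    intro h
    exact hk (Finsupp.single_left_injective (one_ne_zero) h)
  · intro h; exact absurd (Finset.mem_univ _) h

theorem TT_inj {a b : Matrix (Fin N) (Fin N) ℚ} (h : ∀ p, TT a p = TT b p) : a = b := by
  ext i j
  rw [← TT_coeff a i j, ← TT_coeff b i j, h (X i)]

/-! ### embedding of coefficient vectors -/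

/-- Embedding of coefficient vectors. -/
noncomputable def emb (N k : ℕ) : (I N k → ℚ) →ₗ[ℚ] MvPolynomial (Fin N) ℚ where
  toFun v := ∑ s : I N k, monomial s.1 (v s)
  map_add' v w := by
    rw [← Finset.sum_add_distrib]
    exact Finset.sum_congr rfl fun s _ => by rw [Pi.add_apply, map_add]
  map_smul' c v := by
    rw [RingHom.id_apply, Finset.smul_sum]
    exact Finset.sum_congr rfl fun s _ => by rw [Pi.smul_apply, smul_monomial]

theorem emb_apply (k : ℕ) (v : I N k → ℚ) : emb N k v = ∑ s : I N k, monomial s.1 (v s) := rfl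

theorem coeff_emb (k : ℕ) (v : I N k → ℚ) (s : I N k) : coeff s.1 (emb N k v) = v s := by
  classical
  rw [emb_apply, coeff_sum, Finset.sum_eq_single s]
  · rw [coeff_monomial, if_pos rfl]
  · intro b _ hb
    rw [coeff_monomial, if_neg]
    intro h; exact hb (Subtype.ext h)
  · intro h; exact absurd (Finset.mem_univ _) h

theorem emb_injective (k : ℕ) : Function.Injective (emb N k) := by
  intro v w h
  funext s
  rw [← coeff_emb k v s, ← coeff_emb k w s, h]

theorem emb_mem (k : ℕ) (v : I N k → ℚ) : emb N k v ∈ homogeneousSubmodule (Fin N) ℚ k := by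
  rw [mem_homogeneousSubmodule, emb_apply]
  exact IsHomogeneous.sum _ _ _ fun s _ => monomial_homog s _

theorem TT_emb (k : ℕ) (g : Matrix (Fin N) (Fin N) ℚ) (v : I N k → ℚ) :
    TT g (emb N k v) = emb N k ((Mk k g).mulVec v) := by
  rw [emb_apply, emb_apply, map_sum]
  simp only [TT_monomial]
  rw [Finset.sum_comm]
  refine Finset.sum_congr rfl fun s _ => ?_
  rw [Matrix.mulVec, dotProduct, map_sum]

/-! ### Molien's formula -/

/-- Molien's formula for a finite type `Γ` with an anti-homomorphism `mt` into matrices and with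
bijective left multiplications. -/
theorem molien (k : ℕ) (Γ : Type) [Fintype Γ] [Nonempty Γ] (mul : Γ → Γ → Γ)
    (hmul : ∀ h, Function.Bijective (mul h)) (mt : Γ → Matrix (Fin N) (Fin N) ℚ)
    (hmt : ∀ g h, mt (mul g h) = mt h * mt g) :
    (Fintype.card Γ : ℚ) * (Module.finrank ℚ
      ↥(homogeneousSubmodule (Fin N) ℚ k ⊓ ⨅ g : Γ, LinearMap.ker ((TT (mt g)).toLinearMap - LinearMap.id)) : ℚ) =
      ∑ g : Γ, (Mk k (mt g)).trace := by
  classical
  set U : Submodule ℚ (I N k → ℚ) :=
    ⨅ g : Γ, LinearMap.ker (Matrix.toLin' (Mk k (mt g)) - LinearMap.id) with hU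
  have hmemU : ∀ v, v ∈ U ↔ ∀ g : Γ, (Mk k (mt g)).mulVec v = v := by
    intro v
    rw [hU, Submodule.mem_iInf]
    refine forall_congr' fun g => ?_
    rw [LinearMap.mem_ker, LinearMap.sub_apply, Matrix.toLin'_apply, LinearMap.id_apply,
      sub_eq_zero]
  have hmap : U.map (emb N k) = homogeneousSubmodule (Fin N) ℚ k ⊓
      ⨅ g : Γ, LinearMap.ker ((TT (mt g)).toLinearMap - LinearMap.id) := by
    ext p
    rw [Submodule.mem_map, Submodule.mem_inf, Submodule.mem_iInf]
    have hk : ∀ (g : Γ) (p : MvPolynomial (Fin N) ℚ),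
        p ∈ LinearMap.ker ((TT (mt g)).toLinearMap - LinearMap.id) ↔ TT (mt g) p = p := by
      intro g p
      rw [LinearMap.mem_ker, LinearMap.sub_apply, LinearMap.id_apply, sub_eq_zero]
      rfl
    simp only [hk]
    constructor
    · rintro ⟨v, hv, rfl⟩
      refine ⟨emb_mem k v, fun g => ?_⟩
      rw [TT_emb]
      exact congrArg _ ((hmemU v).mp hv g)
    · rintro ⟨hp, hinv⟩
      rw [mem_homogeneousSubmodule] at hp
      refine ⟨fun s => coeff s.1 p, ?_, (expand hp).symm⟩
      have hpe : emb N k (fun s => coeff s.1 p) = p := (expand hp).symm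
      rw [hmemU]
      intro g
      apply emb_injective k
      rw [← TT_emb, hpe]
      exact hinv g
  rw [← hmap]
  have hrank : Module.finrank ℚ ↥(U.map (emb N k)) = Module.finrank ℚ U :=
    (LinearEquiv.finrank_eq (Submodule.equivMapOfInjective (emb N k) (emb_injective k) U)).symm
  have hc : (Fintype.card Γ : ℚ) ≠ 0 := by
    have : 0 < Fintype.card Γ := Fintype.card_pos
    exact_mod_cast this.ne'
  set P : Matrix (I N k) (I N k) ℚ := (Fintype.card Γ : ℚ)⁻¹ • ∑ g : Γ, Mk k (mt g) with hP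
  have hproj : LinearMap.IsProj U (Matrix.toLin' P) := by
    constructor
    · intro v
      rw [hmemU, Matrix.toLin'_apply, hP]
      intro g
      rw [Matrix.smul_mulVec, Matrix.mulVec_smul, Matrix.mulVec_mulVec, Finset.mul_sum]
      congr 2
      have h1 : ∀ h : Γ, Mk k (mt g) * Mk k (mt h) = Mk k (mt (mul g h)) := by
        intro h
        rw [← Mk_mul, hmt]
      simp only [h1]
      exact Fintype.sum_equiv (Equiv.ofBijective _ (hmul g)) _ _ fun h => rfl
    · intro v hv
      rw [hmemU] at hv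
      rw [Matrix.toLin'_apply, hP, Matrix.smul_mulVec, Matrix.sum_mulVec]
      simp only [hv]
      rw [Finset.sum_const, Finset.card_univ, ← Nat.cast_smul_eq_nsmul ℚ, smul_smul,
        inv_mul_cancel₀ hc, one_smul]
  have htr := hproj.trace
  rw [Matrix.trace_toLin'_eq] at htr
  rw [hrank, ← htr, hP, Matrix.trace_smul, Matrix.trace_sum, smul_eq_mul, ← mul_assoc,
    mul_inv_cancel₀ hc, one_mul]

/-! ### the traces of a matrix of finite order -/

theorem geom_trunc (d : ℂ) (M : ℕ) (hd : d ^ M = 1) :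
    (1 - PowerSeries.X ^ M) * PowerSeries.mk (fun k => d ^ k) =
      ((∑ j ∈ Finset.range M, Polynomial.C (d ^ j) * Polynomial.X ^ j : Polynomial ℂ) :
        PowerSeries ℂ) := by
  ext k
  rw [sub_mul, one_mul, map_sub, PowerSeries.coeff_mk, Polynomial.coeff_coe,
    Polynomial.finsetSum_coeff, PowerSeries.coeff_X_pow_mul']
  simp only [Polynomial.coeff_C_mul, Polynomial.coeff_X_pow]
  by_cases hk : M ≤ k
  · rw [if_pos hk, PowerSeries.coeff_mk, Finset.sum_eq_zero]
    · have : d ^ k = d ^ M * d ^ (k - M) := by rw [← pow_add]; congr 1; omega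
      rw [this, hd, one_mul, sub_self]
    · intro j hj
      have := Finset.mem_range.1 hj
      rw [if_neg (by omega), mul_zero]
  · rw [if_neg hk, Finset.sum_eq_single k]
    · simp
    · intro j _ hj
      rw [if_neg (Ne.symm hj), mul_zero]
    · intro h
      exact absurd (Finset.mem_range.2 (not_le.1 hk)) h

theorem geom_deg (d : ℂ) (M : ℕ) :
    (∑ j ∈ Finset.range M, Polynomial.C (d ^ j) * Polynomial.X ^ j : Polynomial ℂ).natDegree ≤ M - 1 := by
  apply Polynomial.natDegree_sum_le_of_forall_le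
  intro j hj
  have := Finset.mem_range.1 hj
  exact (Polynomial.natDegree_C_mul_X_pow_le _ _).trans (by omega)

theorem tau_trunc (G : Matrix (Fin N) (Fin N) ℂ) (M : ℕ) (hM : 0 < M) (hG : G ^ M = 1) :
    ∃ F : Polynomial ℂ, F.natDegree ≤ N * (M - 1) ∧
      tau G * (1 - PowerSeries.X ^ M) ^ N = (F : PowerSeries ℂ) := by
  classical
  obtain ⟨B, B', d, h1, h2, h3, h4⟩ := Pool.Agent.Helper477.Sph.diag_of_pow_eq_one G M hM hG
  have hdM : ∀ i, d i ^ M = 1 := by
    intro i
    obtain ⟨v, hv, hGv⟩ := h4 i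
    have hpow : ∀ k : ℕ, (G ^ k).mulVec v = d i ^ k • v := by
      intro k
      induction k with
      | zero => simp
      | succ k ih =>
        rw [pow_succ', ← Matrix.mulVec_mulVec, ih, Matrix.mulVec_smul, hGv, smul_smul, pow_succ]
    have h5 := hpow M
    rw [hG, Matrix.one_mulVec] at h5
    obtain ⟨x, hx⟩ := Function.ne_iff.1 hv
    have h6 := congrFun h5 x
    rw [Pi.smul_apply, smul_eq_mul] at h6
    have h7 : (d i ^ M - 1) * v x = 0 := by rw [sub_mul, ← h6, one_mul, sub_self]
    rcases mul_eq_zero.1 h7 with h8 | h8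
    · exact sub_eq_zero.1 h8
    · exact absurd h8 hx
  have htau : tau G = ∏ i, PowerSeries.mk (fun k => d i ^ k) := by
    rw [← tau_diag, h3]
    refine PowerSeries.ext fun k => ?_
    rw [coeff_tau, coeff_tau]
    exact Pool.Agent.Helper477.Sph.trace_Mk_conj k B _ B' h1
  refine ⟨∏ i, ∑ j ∈ Finset.range M, Polynomial.C (d i ^ j) * Polynomial.X ^ j, ?_, ?_⟩
  · refine (Polynomial.natDegree_prod_le _ _).trans ?_
    refine (Finset.sum_le_sum fun i _ => geom_deg (d i) M).trans ?_
    simp
  · have e : ((∏ i, ∑ j ∈ Finset.range M, Polynomial.C (d i ^ j) * Polynomial.X ^ j : Polynomial ℂ) :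
        PowerSeries ℂ) = ∏ i, ((∑ j ∈ Finset.range M, Polynomial.C (d i ^ j) * Polynomial.X ^ j :
          Polynomial ℂ) : PowerSeries ℂ) :=
      map_prod (Polynomial.coeToPowerSeries.ringHom (R := ℂ))
        (fun i => (∑ j ∈ Finset.range M, Polynomial.C (d i ^ j) * Polynomial.X ^ j : Polynomial ℂ))
        Finset.univ
    rw [e, htau]
    have e2 : (1 - PowerSeries.X ^ M : PowerSeries ℂ) ^ N = ∏ _i : Fin N, (1 - PowerSeries.X ^ M) := by
      simp
    rw [e2, mul_comm, ← Finset.prod_mul_distrib]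
    exact Finset.prod_congr rfl fun i _ => geom_trunc (d i) M (hdM i)

/-- all matrices in the finite family have `M`-th power one: the Hilbert series is as claimed -/
theorem series (Γ : Type) [Fintype Γ] [Nonempty Γ] (mt : Γ → Matrix (Fin N) (Fin N) ℚ)
    (M : ℕ) (hM : 0 < M) (hmM : ∀ g, mt g ^ M = 1) (H : ℕ → ℕ)
    (hH : ∀ k, (Fintype.card Γ : ℚ) * (H k : ℚ) = ∑ g : Γ, (Mk k (mt g)).trace) :
    ∃ F : Polynomial ℚ, F.natDegree ≤ N * (M - 1) ∧
      Pool.Agent.Y461.KM.gf H * (1 - PowerSeries.X ^ M) ^ N = (F : PowerSeries ℚ) := by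
  classical
  set S : PowerSeries ℚ := Pool.Agent.Y461.KM.gf H * (1 - PowerSeries.X ^ M) ^ N with hS
  have hc : (Fintype.card Γ : ℂ) ≠ 0 := by
    have : 0 < Fintype.card Γ := Fintype.card_pos
    exact_mod_cast this.ne'
  -- over the complex numbers
  have h1 : PowerSeries.C (Fintype.card Γ : ℂ) * PowerSeries.map (algebraMap ℚ ℂ) (Pool.Agent.Y461.KM.gf H) =
      ∑ g : Γ, tau ((mt g).map (algebraMap ℚ ℂ)) := by
    refine PowerSeries.ext fun k => ?_
    rw [PowerSeries.coeff_C_mul, PowerSeries.coeff_map, map_sum]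
    unfold Pool.Agent.Y461.KM.gf
    rw [PowerSeries.coeff_mk]
    have h2 := congrArg (algebraMap ℚ ℂ) (hH k)
    rw [map_mul, map_sum] at h2
    simp only [coeff_tau]
    have h3 : ∀ g : Γ, (Mk k ((mt g).map (algebraMap ℚ ℂ))).trace = algebraMap ℚ ℂ (Mk k (mt g)).trace := by
      intro g
      rw [Mk_map]
      unfold Matrix.trace
      rw [map_sum]
      rfl
    simp only [h3]
    rw [← h2]
    simp
  have hG : ∀ g : Γ, ((mt g).map (algebraMap ℚ ℂ)) ^ M = 1 := by
    intro g
    have h2 : ((mt g).map (algebraMap ℚ ℂ)) ^ M = ((mt g) ^ M).map (algebraMap ℚ ℂ) := by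
      exact (map_pow (algebraMap ℚ ℂ).mapMatrix (mt g) M).symm
    rw [h2, hmM g]
    exact Matrix.map_one _ (map_zero _) (map_one _)
  choose F hFd hF using fun g => tau_trunc ((mt g).map (algebraMap ℚ ℂ)) M hM (hG g)
  have h2 : PowerSeries.C (Fintype.card Γ : ℂ) * PowerSeries.map (algebraMap ℚ ℂ) S =
      ((∑ g : Γ, F g : Polynomial ℂ) : PowerSeries ℂ) := by
    have e : ((∑ g : Γ, F g : Polynomial ℂ) : PowerSeries ℂ) = ∑ g : Γ, (F g : PowerSeries ℂ) :=
      map_sum (Polynomial.coeToPowerSeries.ringHom (R := ℂ)) _ Finset.univ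
    rw [e, hS, map_mul, ← mul_assoc, h1, Finset.sum_mul]
    refine Finset.sum_congr rfl fun g _ => ?_
    rw [← hF g]
    simp
  have hvan : ∀ k, N * (M - 1) < k → PowerSeries.coeff k S = 0 := by
    intro k hk
    have h3 := congrArg (PowerSeries.coeff k) h2
    rw [PowerSeries.coeff_C_mul, PowerSeries.coeff_map, Polynomial.coeff_coe,
      Polynomial.finsetSum_coeff] at h3
    have h4 : ∑ g : Γ, (F g).coeff k = 0 := by
      apply Finset.sum_eq_zero
      intro g _
      exact Polynomial.coeff_eq_zero_of_natDegree_lt ((hFd g).trans_lt hk)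
    rw [h4] at h3
    rcases mul_eq_zero.1 h3 with h5 | h5
    · exact absurd h5 hc
    · exact (map_eq_zero_iff (algebraMap ℚ ℂ) (algebraMap ℚ ℂ).injective).1 h5
  refine ⟨PowerSeries.trunc (N * (M - 1) + 1) S, ?_, ?_⟩
  · have := PowerSeries.natDegree_trunc_lt S (N * (M - 1))
    omega
  · ext k
    rw [Polynomial.coeff_coe, PowerSeries.coeff_trunc]
    split_ifs with h
    · rfl
    · exact hvan k (by omega)

end Pool.Agent.Y401.KM
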